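import Mathlib

/-!
Relations on the natural numbers which are defined by a greedy rule from additively periodic data are
additively periodic.
-/

set_option autoImplicit false

namespace Pool.Agent.Y806.NP

/-- the relation is invariant under the diagonal shift by `p` from the row `N` on -/
def Per (R : ℕ → ℕ → Prop) (N p : ℕ) : Prop :=
  ∀ a b, N ≤ a → (R a b ↔ R (a + p) (b + p))

theorem Per.mul {R : ℕ → ℕ → Prop} {N p : ℕ} (h : Per R N p) (k : ℕ) : Per R N (p * k) := by
  induction k with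
  | zero => intro a b _; simp
  | succ k ih =>
    intro a b ha
    rw [ih a b ha, h (a + p * k) (b + p * k) (by omega)]
    rw [Nat.mul_succ, Nat.add_assoc, Nat.add_assoc]

theorem Per.mono {R : ℕ → ℕ → Prop} {N N' p : ℕ} (h : Per R N p) (hN : N ≤ N') : Per R N' p :=
  fun a b ha => h a b (hN.trans ha)

theorem Per.dvd {R : ℕ → ℕ → Prop} {N p q : ℕ} (h : Per R N p) (hpq : p ∣ q) : Per R N q := by
  obtain ⟨k, rfl⟩ := hpq
  exact h.mul k

theorem Per.or {R S : ℕ → ℕ → Prop} {N p : ℕ} (hR : Per R N p) (hS : Per S N p) :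
    Per (fun a b => R a b ∨ S a b) N p :=
  fun a b ha => or_congr (hR a b ha) (hS a b ha)

theorem Per.union {ι : Type} (s : Finset ι) (R : ι → ℕ → ℕ → Prop) {N p : ℕ}
    (h : ∀ t ∈ s, Per (R t) N p) : Per (fun a b => ∃ t ∈ s, R t a b) N p := by
  intro a b ha
  constructor
  · rintro ⟨t, ht, hh⟩
    exact ⟨t, ht, (h t ht a b ha).1 hh⟩
  · rintro ⟨t, ht, hh⟩
    exact ⟨t, ht, (h t ht a b ha).2 hh⟩

/-- an explicit period -/
def pB : ℕ → ℕ
  | 0 => 1
  | s + 1 => (2 ^ (3 * s + 3) * pB s).factorial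

/-- an explicit preperiod -/
def nB : ℕ → ℕ
  | 0 => 1
  | s + 1 => nB s + 2 ^ (3 * s + 3) * pB s + s + 1

theorem pB_pos (s : ℕ) : 1 ≤ pB s := by
  cases s with
  | zero => exact le_rfl
  | succ s => exact Nat.factorial_pos _

theorem pB_dvd_succ (s : ℕ) : pB s ∣ pB (s + 1) := by
  show pB s ∣ (2 ^ (3 * s + 3) * pB s).factorial
  exact (Dvd.intro_left _ rfl).trans
    (Nat.dvd_factorial (Nat.mul_pos (Nat.two_pow_pos _) (pB_pos s)) le_rfl)

theorem pB_dvd {s t : ℕ} (h : s ≤ t) : pB s ∣ pB t := by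
  induction h with
  | refl => exact dvd_rfl
  | step _ ih => exact ih.trans (pB_dvd_succ _)

theorem nB_mono {s t : ℕ} (h : s ≤ t) : nB s ≤ nB t := by
  induction h with
  | refl => exact le_rfl
  | @step m _ ih =>
    show nB s ≤ nB m + 2 ^ (3 * m + 3) * pB m + m + 1
    omega

/-- the greedy rule -/
def Rule (Q E : ℕ → ℕ → Prop) : Prop :=
  ∀ a b, Q a b ↔ ¬ E a b ∧ (∀ a' < a, ¬ Q a' b) ∧ (∀ b' < b, ¬ Q a b')

theorem Rule.swap {Q E : ℕ → ℕ → Prop} (h : Rule Q E) :
    Rule (fun a b => Q b a) (fun a b => E b a) := by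
  intro a b
  show Q b a ↔ _
  rw [h b a]
  exact ⟨fun ⟨h1, h2, h3⟩ => ⟨h1, h3, h2⟩, fun ⟨h1, h2, h3⟩ => ⟨h1, h3, h2⟩⟩

theorem Rule.unique {Q E : ℕ → ℕ → Prop} (h : Rule Q E) {a b b' : ℕ} (h1 : Q a b)
    (h2 : Q a b') : b = b' := by
  rcases lt_trichotomy b b' with h3 | h3 | h3
  · exact absurd h1 (((h a b').1 h2).2.2 b h3)
  · exact h3
  · exact absurd h2 (((h a b).1 h1).2.2 b' h3)

/-- the displacement is bounded by the number of exceptions in a row -/
theorem Rule.disp {Q E : ℕ → ℕ → Prop} (h : Rule Q E) (m : ℕ)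
    (hE : ∀ a, ∃ F : Finset ℕ, F.card ≤ m ∧ ∀ b, E a b → b ∈ F) {a b : ℕ} (hQ : Q a b) :
    b ≤ a + m := by
  classical
  obtain ⟨F, hF, hF2⟩ := hE a
  let g : ℕ → ℕ := fun a' => if h : ∃ b', Q a' b' then h.choose else 0
  have hg : ∀ a' b', Q a' b' → g a' = b' := by
    intro a' b' hab
    have hex : ∃ b', Q a' b' := ⟨b', hab⟩
    have : g a' = hex.choose := by
      show (if h : ∃ b', Q a' b' then h.choose else 0) = _
      rw [dif_pos hex]
    rw [this]
    exact h.unique hex.choose_spec hab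
  have hsub : Finset.range b ⊆ F ∪ (Finset.range a).image g := by
    intro b' hb'
    rw [Finset.mem_range] at hb'
    rw [Finset.mem_union, Finset.mem_image]
    by_cases hEb : E a b'
    · exact Or.inl (hF2 b' hEb)
    · right
      have h1 : ¬ Q a b' := ((h a b).1 hQ).2.2 b' hb'
      rw [h a b'] at h1
      by_contra hcon
      push Not at hcon
      apply h1
      refine ⟨hEb, fun a' ha' hq => ?_, fun b'' hb'' => ((h a b).1 hQ).2.2 b'' (hb''.trans hb')⟩
      exact hcon a' (Finset.mem_range.2 ha') (hg a' b' hq)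
  have h1 := Finset.card_le_card hsub
  have h2 := Finset.card_union_le F ((Finset.range a).image g)
  have h3 := Finset.card_image_le (s := Finset.range a) (f := g)
  rw [Finset.card_range] at h1 h3
  omega

/-- every row contains a solution -/
theorem Rule.exists {Q E : ℕ → ℕ → Prop} (h : Rule Q E) (D : ℕ)
    (hE : ∀ a, ∃ F : Finset ℕ, ∀ b, E a b → b ∈ F) (hD : ∀ a b, Q a b → b ≤ a + D) (a : ℕ) :
    ∃ b, Q a b := by
  obtain ⟨F, hF⟩ := hE a
  by_contra hcon
  push Not at hcon
  apply hcon (a + D + F.sup id + 1)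
  rw [h]
  refine ⟨fun hh => ?_, fun a' ha' hq => ?_, fun b' _ => hcon b'⟩
  · have := Finset.le_sup (f := id) (hF _ hh)
    simp only [id] at this
    omega
  · have := hD _ _ hq
    omega

/-- **The greedy rule preserves additive periodicity**, with explicit bounds. -/
theorem Rule.per {Q E : ℕ → ℕ → Prop} (hQ : Rule Q E) (D N p : ℕ) (hp : 1 ≤ p)
    (hD : ∀ a b, Q a b → a ≤ b + D ∧ b ≤ a + D) (hE : Per E N p) :
    Per Q (N + p * 2 ^ (2 * D + 1) + D) (p * 2 ^ (2 * D + 1)).factorial := by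
  classical
  set M := p * 2 ^ (2 * D + 1) with hM
  let q : ℕ → ℕ → Prop := fun c d => Q (c + D) (c + d)
  let s : ℕ → ℕ → Prop := fun c d => ∃ a' < c + D, Q a' (c + d)
  let e : ℕ → ℕ → Prop := fun c d => E (c + D) (c + d)
  have hq : ∀ c d, q c d ↔ ¬ e c d ∧ ¬ s c d ∧ ∀ d' < d, ¬ q c d' := by
    intro c d
    show Q (c + D) (c + d) ↔ _
    rw [hQ]
    constructor
    · rintro ⟨h1, h2, h3⟩
      refine ⟨h1, ?_, fun d' hd' => h3 (c + d') (by omega)⟩
      rintro ⟨a', ha', hh⟩
      exact h2 a' ha' hh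
    · rintro ⟨h1, h2, h3⟩
      refine ⟨h1, fun a' ha' hh => h2 ⟨a', ha', hh⟩, fun b' hb' hh => ?_⟩
      by_cases hc : c ≤ b'
      · obtain ⟨d', rfl⟩ := Nat.exists_eq_add_of_le hc
        exact h3 d' (by omega) hh
      · have := (hD _ _ hh).1
        omega
  have hs : ∀ c d, s (c + 1) d ↔ s c (d + 1) ∨ q c (d + 1) := by
    intro c d
    have ecd : c + 1 + d = c + (d + 1) := by omega
    constructor
    · rintro ⟨a', ha', hh⟩
      rw [ecd] at hh
      by_cases h1 : a' < c + D
      · exact Or.inl ⟨a', h1, hh⟩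
      · right
        have : a' = c + D := by omega
        subst this
        exact hh
    · rintro (⟨a', ha', hh⟩ | hh)
      · refine ⟨a', by omega, ?_⟩
        rw [ecd]
        exact hh
      · refine ⟨c + D, by omega, ?_⟩
        rw [ecd]
        exact hh
  have hs0 : ∀ c d, s c d → d < 2 * D + 1 := by
    rintro c d ⟨a', ha', hh⟩
    have := (hD _ _ hh).2
    omega
  have step : ∀ c c', (∀ d, s c d ↔ s c' d) → (∀ d, e c d ↔ e c' d) → ∀ d, q c d ↔ q c' d := by
    intro c c' h1 h2 d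
    induction d using Nat.strong_induction_on with
    | _ d ih =>
      rw [hq, hq, h1, h2]
      constructor
      · rintro ⟨g1, g2, g3⟩
        exact ⟨g1, g2, fun d' hd' hh => g3 d' hd' ((ih d' hd').2 hh)⟩
      · rintro ⟨g1, g2, g3⟩
        exact ⟨g1, g2, fun d' hd' hh => g3 d' hd' ((ih d' hd').1 hh)⟩
  -- pigeonhole
  let f : ℕ → (Fin (2 * D + 1) → Prop) × Fin p := fun t =>
    (fun d => s (N + t) d, ⟨(N + t) % p, Nat.mod_lt _ hp⟩)
  have hpig : ∃ t1 t2 : ℕ, t1 < t2 ∧ t2 ≤ M ∧ f t1 = f t2 := by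
    have hcard : Fintype.card ((Fin (2 * D + 1) → Prop) × Fin p) < Fintype.card (Fin (M + 1)) := by
      rw [Fintype.card_prod, Fintype.card_fun, Fintype.card_prop, Fintype.card_fin,
        Fintype.card_fin, Fintype.card_fin, hM, Nat.mul_comm]
      exact Nat.lt_succ_self _
    obtain ⟨u1, u2, hne, heq⟩ := Fintype.exists_ne_map_eq_of_card_lt
      (fun t : Fin (M + 1) => f t) hcard
    have h1 := u1.2
    have h2 := u2.2
    rcases Nat.lt_trichotomy u1 u2 with h | h | h
    · exact ⟨u1, u2, h, by omega, heq⟩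
    · exact absurd (Fin.ext h) hne
    · exact ⟨u2, u1, h, by omega, heq.symm⟩
  obtain ⟨t1, t2, hlt, ht2, heq⟩ := hpig
  have heq1 : ∀ d, s (N + t1) d ↔ s (N + t2) d := by
    intro d
    by_cases hd : d < 2 * D + 1
    · have := congrFun (congrArg Prod.fst heq) ⟨d, hd⟩
      exact Iff.of_eq this
    · exact ⟨fun hh => absurd (hs0 _ _ hh) hd, fun hh => absurd (hs0 _ _ hh) hd⟩
  have heq2 : (N + t1) % p = (N + t2) % p := by
    have := congrArg Prod.snd heq
    exact Fin.mk.inj_iff.1 this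
  obtain ⟨k, hk⟩ : p ∣ (N + t2) - (N + t1) := (Nat.modEq_iff_dvd' (by omega)).1 heq2
  set P := (N + t2) - (N + t1) with hP
  have hP1 : 1 ≤ P := by omega
  have heP : ∀ c d, N ≤ c → (e c d ↔ e (c + P) d) := by
    intro c d hc
    show E (c + D) (c + d) ↔ E (c + P + D) (c + P + d)
    rw [(hE.mul k) (c + D) (c + d) (by omega), ← hk]
    have e1 : c + D + P = c + P + D := by omega
    have e2 : c + d + P = c + P + d := by omega
    rw [e1, e2]
  have hind : ∀ t, ∀ d, s (N + t1 + t) d ↔ s (N + t1 + t + P) d := by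
    intro t
    induction t with
    | zero =>
      intro d
      have : N + t1 + 0 + P = N + t2 := by omega
      rw [this]
      exact heq1 d
    | succ t ih =>
      intro d
      have e1 : N + t1 + (t + 1) = (N + t1 + t) + 1 := by omega
      have e2 : N + t1 + (t + 1) + P = (N + t1 + t + P) + 1 := by omega
      rw [e2, e1, hs, hs, ih, step (N + t1 + t) (N + t1 + t + P) ih
        (fun d => heP _ d (by omega)) (d + 1)]
  have hdvd : P ∣ M.factorial := Nat.dvd_factorial hP1 (by omega)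
  obtain ⟨r, hr⟩ := hdvd
  have hfin : Per Q (N + t1 + D) P := ?_
  · rw [hr]
    exact (hfin.mul r).mono (by omega)
  intro a b ha
  obtain ⟨t, rfl⟩ := Nat.exists_eq_add_of_le ha
  have ea : N + t1 + D + t = N + t1 + t + D := by omega
  by_cases hb : N + t1 + t ≤ b
  · obtain ⟨d, rfl⟩ := Nat.exists_eq_add_of_le hb
    have h1 := step (N + t1 + t) (N + t1 + t + P) (hind t) (fun d => heP _ d (by omega)) d
    have e1 : N + t1 + D + t + P = N + t1 + t + P + D := by omega
    have e2 : N + t1 + t + d + P = N + t1 + t + P + d := by omega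
    rw [e1, e2, ea]
    exact h1
  · constructor
    · intro hh
      have := (hD _ _ hh).1
      omega
    · intro hh
      have := (hD _ _ hh).1
      omega

end Pool.Agent.Y806.NP
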