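import Pool.Agent.Y806.NP.Abs
import Pool.Agent.Results.MP_1b13b2_co.TwoUnitSubsets

/-!
Nim with a single pass: all heaps but two are fixed.
-/

set_option autoImplicit false

namespace Pool.Agent.Y806.NP

open Pool.Agent.Results.MP_1b13b2_co.TwoUnitSubsets Finset

variable {n : ℕ}

/-- the heaps `i` and `j` of `h` are replaced by heaps of sizes `a` and `b` -/
def pos (h : Fin n → ℕ) (i j : Fin n) (a b : ℕ) : Fin n → ℕ :=
  Function.update (Function.update h i a) j b

/-- this is a P-position with the pass available -/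
def PP (h : Fin n → ℕ) (i j : Fin n) (a b : ℕ) : Prop :=
  IsP (⟨pos h i j a b, true⟩ : Position n)

/-- the other heaps -/
def rest (i j : Fin n) : Finset (Fin n) := univ.filter (fun l => l ≠ i ∧ l ≠ j)

/-- the Nim moves in the other heaps -/
def opts (h : Fin n → ℕ) (i j : Fin n) : Finset (Σ _ : Fin n, ℕ) :=
  (rest i j).sigma (fun l => range (h l))

/-- the pass wins -/
def NZ (h : Fin n → ℕ) (i j : Fin n) (a b : ℕ) : Prop :=
  (∃ l, pos h i j a b l ≠ 0) ∧ nimSum univ (pos h i j a b) = 0

/-- the pass or a move in one of the other heaps wins -/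
def EE (h : Fin n → ℕ) (i j : Fin n) (a b : ℕ) : Prop :=
  NZ h i j a b ∨ ∃ t ∈ opts h i j, PP (Function.update h t.1 t.2) i j a b

theorem pos_i (h : Fin n → ℕ) {i j : Fin n} (hij : i ≠ j) (a b : ℕ) : pos h i j a b i = a := by
  simp [pos, Function.update_of_ne hij]

theorem pos_j (h : Fin n → ℕ) (i j : Fin n) (a b : ℕ) : pos h i j a b j = b := by
  simp [pos]

theorem pos_ne (h : Fin n → ℕ) {i j l : Fin n} (hi : l ≠ i) (hj : l ≠ j) (a b : ℕ) :
    pos h i j a b l = h l := by
  simp [pos, Function.update_of_ne hi, Function.update_of_ne hj]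

theorem upd_i (h : Fin n → ℕ) {i j : Fin n} (hij : i ≠ j) (a b a' : ℕ) :
    Function.update (pos h i j a b) i a' = pos h i j a' b := by
  funext l
  by_cases hi : l = i
  · subst hi
    rw [Function.update_self, pos_i h hij]
  · rw [Function.update_of_ne hi]
    by_cases hj : l = j
    · subst hj
      rw [pos_j, pos_j]
    · rw [pos_ne h hi hj, pos_ne h hi hj]

theorem upd_j (h : Fin n → ℕ) {i j : Fin n} (hij : i ≠ j) (a b b' : ℕ) :
    Function.update (pos h i j a b) j b' = pos h i j a b' := by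
  funext l
  by_cases hj : l = j
  · subst hj
    rw [Function.update_self, pos_j]
  · rw [Function.update_of_ne hj]
    by_cases hi : l = i
    · subst hi
      rw [pos_i h hij, pos_i h hij]
    · rw [pos_ne h hi hj, pos_ne h hi hj]

theorem upd_ne (h : Fin n → ℕ) {i j l : Fin n} (hij : i ≠ j) (hi : l ≠ i) (hj : l ≠ j)
    (a b k : ℕ) :
    Function.update (pos h i j a b) l k = pos (Function.update h l k) i j a b := by
  funext m
  by_cases hm : m = l
  · subst hm
    rw [Function.update_self, pos_ne _ hi hj, Function.update_self]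
  · rw [Function.update_of_ne hm]
    by_cases hmi : m = i
    · subst hmi
      rw [pos_i h hij, pos_i _ hij]
    · by_cases hmj : m = j
      · subst hmj
        rw [pos_j, pos_j]
      · rw [pos_ne h hmi hmj, pos_ne _ hmi hmj, Function.update_of_ne hm]

theorem pos_comm (h : Fin n → ℕ) {i j : Fin n} (hij : i ≠ j) (a b : ℕ) :
    pos h i j a b = pos h j i b a := by
  unfold pos
  rw [Function.update_comm hij]

theorem PP_comm (h : Fin n → ℕ) {i j : Fin n} (hij : i ≠ j) (a b : ℕ) :
    PP h i j a b ↔ PP h j i b a := by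
  unfold PP
  rw [pos_comm h hij]

theorem mem_opts (h : Fin n → ℕ) (i j : Fin n) (t : Σ _ : Fin n, ℕ) :
    t ∈ opts h i j ↔ (t.1 ≠ i ∧ t.1 ≠ j) ∧ t.2 < h t.1 := by
  simp [opts, rest, Finset.mem_sigma]

theorem rule (h : Fin n → ℕ) {i j : Fin n} (hij : i ≠ j) : Rule (PP h i j) (EE h i j) := by
  intro a b
  unfold PP
  rw [isP_iff]
  constructor
  · intro H
    refine ⟨?_, ?_, ?_⟩
    · rintro (⟨h1, h2⟩ | ⟨⟨l, k⟩, ht, hh⟩)
      · exact H ⟨pos h i j a b, false⟩ (Or.inr ⟨rfl, h1, rfl⟩) ((isP_false_iff _).2 h2)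
      · obtain ⟨⟨hi, hj⟩, hk⟩ := (mem_opts h i j _).1 ht
        dsimp only at hi hj hk hh
        refine H ⟨Function.update (pos h i j a b) l k, true⟩ (Or.inl ⟨l, k, ?_, rfl⟩) ?_
        · show k < pos h i j a b l
          rw [pos_ne h hi hj]
          exact hk
        · rw [upd_ne h hij hi hj]
          exact hh
    · intro a' ha' hh
      refine H ⟨Function.update (pos h i j a b) i a', true⟩ (Or.inl ⟨i, a', ?_, rfl⟩) ?_
      · show a' < pos h i j a b i
        rw [pos_i h hij]
        exact ha'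
      · rw [upd_i h hij]
        exact hh
    · intro b' hb' hh
      refine H ⟨Function.update (pos h i j a b) j b', true⟩ (Or.inl ⟨j, b', ?_, rfl⟩) ?_
      · show b' < pos h i j a b j
        rw [pos_j]
        exact hb'
      · rw [upd_j h hij]
        exact hh
  · rintro ⟨h1, h2, h3⟩ q (⟨l, k, hk, rfl⟩ | ⟨-, hne, rfl⟩)
    · dsimp only at hk ⊢
      by_cases hi : l = i
      · subst hi
        rw [pos_i h hij] at hk
        rw [upd_i h hij]
        exact h2 k hk
      · by_cases hj : l = j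
        · subst hj
          rw [pos_j] at hk
          rw [upd_j h hij]
          exact h3 k hk
        · rw [pos_ne h hi hj] at hk
          rw [upd_ne h hij hi hj]
          intro hh
          exact h1 (Or.inr ⟨⟨l, k⟩, (mem_opts h i j _).2 ⟨⟨hi, hj⟩, hk⟩, hh⟩)
    · intro hq
      exact h1 (Or.inl ⟨hne, (isP_false_iff _).1 hq⟩)

theorem nimSum_pos (h : Fin n → ℕ) {i j : Fin n} (hij : i ≠ j) (a b : ℕ) :
    nimSum univ (pos h i j a b) = a ^^^ (b ^^^ nimSum (rest i j) h) := by
  have hu : (univ : Finset (Fin n)) = insert i (insert j (rest i j)) := by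
    ext l
    simp only [mem_univ, mem_insert, rest, mem_filter, true_and, true_iff]
    tauto
  rw [hu, nimSum_insert, nimSum_insert, pos_i h hij, pos_j]
  · congr 2
    apply nimSum_congr
    intro l hl
    simp only [rest, mem_filter, mem_univ, true_and] at hl
    exact pos_ne h hl.1 hl.2 a b
  · simp [rest]
  · simp [rest, hij]

theorem nimSum_pos_zero (h : Fin n → ℕ) {i j : Fin n} (hij : i ≠ j) (a b : ℕ) :
    nimSum univ (pos h i j a b) = 0 ↔ b = nimSum (rest i j) h ^^^ a := by
  rw [nimSum_pos h hij]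
  constructor
  · intro H
    have : a ^^^ (b ^^^ nimSum (rest i j) h) ^^^ (a ^^^ nimSum (rest i j) h) =
        0 ^^^ (a ^^^ nimSum (rest i j) h) := by rw [H]
    rw [Nat.zero_xor] at this
    rw [Nat.xor_comm _ a, ← this]
    generalize nimSum (rest i j) h = x
    rw [Nat.xor_comm a (b ^^^ x), Nat.xor_assoc, ← Nat.xor_assoc a a x, Nat.xor_self,
      Nat.zero_xor, Nat.xor_assoc, Nat.xor_self, Nat.xor_zero]
  · rintro rfl
    generalize nimSum (rest i j) h = x
    rw [Nat.xor_comm x a, Nat.xor_assoc a x x, Nat.xor_self, Nat.xor_zero, Nat.xor_self]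

theorem xor_add_two_pow (x k a : ℕ) (hx : x < 2 ^ k) : x ^^^ (a + 2 ^ k) = (x ^^^ a) + 2 ^ k := by
  have h2 : 0 < 2 ^ k := Nat.two_pow_pos k
  have hd : (x ^^^ (a + 2 ^ k)) / 2 ^ k = ((x ^^^ a) + 2 ^ k) / 2 ^ k := by
    rw [Nat.add_div_right _ h2, Nat.xor_div_two_pow, Nat.xor_div_two_pow, Nat.add_div_right _ h2,
      Nat.div_eq_of_lt hx, Nat.zero_xor, Nat.zero_xor]
  have hm : (x ^^^ (a + 2 ^ k)) % 2 ^ k = ((x ^^^ a) + 2 ^ k) % 2 ^ k := by
    rw [Nat.add_mod_right, Nat.xor_mod_two_pow, Nat.xor_mod_two_pow, Nat.add_mod_right]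
  rw [← Nat.div_add_mod (x ^^^ (a + 2 ^ k)) (2 ^ k), hd, hm, Nat.div_add_mod]

theorem nimSum_lt (A : Finset (Fin n)) (h : Fin n → ℕ) (k : ℕ) (hA : ∀ l ∈ A, h l < 2 ^ k) :
    nimSum A h < 2 ^ k := by
  induction A using Finset.induction_on with
  | empty =>
    rw [nimSum_empty]
    exact Nat.two_pow_pos k
  | insert i A hi ih =>
    rw [nimSum_insert hi]
    exact Nat.xor_lt_two_pow (hA i (Finset.mem_insert_self i A))
      (ih (fun l hl => hA l (Finset.mem_insert_of_mem hl)))

theorem per_NZ (h : Fin n → ℕ) {i j : Fin n} (hij : i ≠ j) (k : ℕ)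
    (hk : nimSum (rest i j) h < 2 ^ k) : Per (NZ h i j) 1 (2 ^ k) := by
  set x := nimSum (rest i j) h with hx
  intro a b ha
  have key : ∀ a b, 1 ≤ a → (NZ h i j a b ↔ b = x ^^^ a) := by
    intro a b ha
    unfold NZ
    rw [nimSum_pos_zero h hij]
    constructor
    · exact fun hh => hh.2
    · refine fun hh => ⟨⟨i, ?_⟩, hh⟩
      rw [pos_i h hij]
      omega
  rw [key a b ha, key (a + 2 ^ k) (b + 2 ^ k) (ha.trans (Nat.le_add_right _ _)),
    xor_add_two_pow x k a hk]
  exact Nat.add_right_cancel_iff.symm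

theorem rows (h : Fin n → ℕ) {i j : Fin n} (hij : i ≠ j) (a : ℕ) :
    ∃ F : Finset ℕ, F.card ≤ 1 + ∑ l ∈ rest i j, h l ∧ ∀ b, EE h i j a b → b ∈ F := by
  classical
  let g : (Σ _ : Fin n, ℕ) → ℕ := fun t =>
    if hh : ∃ b, PP (Function.update h t.1 t.2) i j a b then hh.choose else 0
  refine ⟨insert (nimSum (rest i j) h ^^^ a) ((opts h i j).image g), ?_, ?_⟩
  · have h1 := Finset.card_insert_le (nimSum (rest i j) h ^^^ a) ((opts h i j).image g)
    have h2 := Finset.card_image_le (s := opts h i j) (f := g)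
    have h3 : (opts h i j).card = ∑ l ∈ rest i j, h l := by
      simp [opts, Finset.card_sigma]
    omega
  · rintro b (⟨-, hb⟩ | ⟨t, ht, hb⟩)
    · rw [nimSum_pos_zero h hij] at hb
      exact Finset.mem_insert.2 (Or.inl hb)
    · refine Finset.mem_insert.2 (Or.inr (Finset.mem_image.2 ⟨t, ht, ?_⟩))
      have hex : ∃ b, PP (Function.update h t.1 t.2) i j a b := ⟨b, hb⟩
      have : g t = hex.choose := by
        show (if hh : ∃ b, PP (Function.update h t.1 t.2) i j a b then hh.choose else 0) = _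
        rw [dif_pos hex]
      rw [this]
      exact (rule (Function.update h t.1 t.2) hij).unique hex.choose_spec hb

theorem rest_comm (i j : Fin n) : rest i j = rest j i := by
  ext l
  simp only [rest, mem_filter, mem_univ, true_and]
  tauto

/-- the two heaps differ by at most the sum of the other heaps plus one -/
theorem disp (h : Fin n → ℕ) {i j : Fin n} (hij : i ≠ j) (a b : ℕ) (hP : PP h i j a b) :
    a ≤ b + (1 + ∑ l ∈ rest i j, h l) ∧ b ≤ a + (1 + ∑ l ∈ rest i j, h l) := by
  constructor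
  · have := (rule h hij.symm).disp _ (rows h hij.symm) ((PP_comm h hij a b).1 hP)
    rwa [rest_comm j i] at this
  · exact (rule h hij).disp _ (rows h hij) hP

theorem exists_b (h : Fin n → ℕ) {i j : Fin n} (hij : i ≠ j) (a : ℕ) : ∃ b, PP h i j a b :=
  (rule h hij).exists _ (fun a => by
    obtain ⟨F, -, hF⟩ := rows h hij a
    exact ⟨F, hF⟩) (fun a b hh => (disp h hij a b hh).2) a

theorem existsUnique_b (h : Fin n → ℕ) {i j : Fin n} (hij : i ≠ j) (a : ℕ) :
    ∃! b, PP h i j a b := by
  obtain ⟨b, hb⟩ := exists_b h hij a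
  exact ⟨b, hb, fun b' hb' => (rule h hij).unique hb' hb⟩

theorem per_PP {i j : Fin n} (hij : i ≠ j) : ∀ (S : ℕ) (h : Fin n → ℕ),
    ∑ l ∈ rest i j, h l = S → Per (PP h i j) (nB (S + 1)) (pB (S + 1)) := by
  intro S
  induction S using Nat.strong_induction_on with
  | _ S ih =>
    intro h hS
    have hE : Per (EE h i j) (nB S) (2 ^ S * pB S) := by
      refine Per.or ?_ (Per.union (opts h i j)
        (fun t a b => PP (Function.update h t.1 t.2) i j a b) ?_)
      · refine ((per_NZ h hij S ?_).mul (pB S)).mono (nB_mono (Nat.zero_le S))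
        refine nimSum_lt _ _ _ (fun l hl => ?_)
        have h1 : h l ≤ ∑ l ∈ rest i j, h l :=
          Finset.single_le_sum (f := h) (fun _ _ => Nat.zero_le _) hl
        have h2 : S < 2 ^ S := Nat.lt_two_pow_self
        omega
      · intro t ht
        obtain ⟨⟨hi, hj⟩, hk⟩ := (mem_opts h i j t).1 ht
        have hlt : ∑ l ∈ rest i j, Function.update h t.1 t.2 l < ∑ l ∈ rest i j, h l := by
          apply Finset.sum_lt_sum
          · intro l _
            by_cases hl : l = t.1
            · subst hl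
              simp [hk.le]
            · simp [Function.update_of_ne hl]
          · refine ⟨t.1, ?_, by simpa using hk⟩
            simp [rest, hi, hj]
        have h1 := ih _ (hS ▸ hlt) _ rfl
        refine (h1.mono (nB_mono ?_)).dvd ((pB_dvd ?_).trans (Dvd.intro_left _ rfl))
        · omega
        · omega
    have h1 := (rule h hij).per (1 + S) (nB S) (2 ^ S * pB S)
      (Nat.mul_pos (Nat.two_pow_pos _) (pB_pos S)) (by
        intro a b hab
        have := disp h hij a b hab
        rwa [hS] at this) hE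
    have e1 : 2 ^ S * pB S * 2 ^ (2 * (1 + S) + 1) = 2 ^ (3 * S + 3) * pB S := by
      rw [show 3 * S + 3 = S + (2 * (1 + S) + 1) by omega, Nat.pow_add]
      ring
    rw [e1] at h1
    have e2 : nB S + 2 ^ (3 * S + 3) * pB S + (1 + S) = nB (S + 1) := by
      show _ = nB S + 2 ^ (3 * S + 3) * pB S + S + 1
      omega
    rw [e2] at h1
    exact h1

end Pool.Agent.Y806.NP
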