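import Pool.Agent.Y806.NP.Nim

/-!
Three heaps, one of them of size at most three.
-/

set_option autoImplicit false

namespace Pool.Agent.Y806.NP

open Pool.Agent.Results.MP_1b13b2_co.TwoUnitSubsets Finset

theorem Rule.table {Q E : ℕ → ℕ → Prop} (h : Rule Q E) (f : ℕ → ℕ) (hf : ∀ a, f (f a) = a)
    (h1 : ∀ a, ¬ E a (f a)) (h2 : ∀ a b, b < f a → a < f b → E a b) (a b : ℕ) :
    Q a b ↔ b = f a := by
  have key : ∀ a, Q a (f a) := by
    intro a
    induction a using Nat.strong_induction_on with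
    | _ a ih =>
      rw [h]
      refine ⟨h1 a, fun a' ha' hq => ?_, fun b' hb' hq => ?_⟩
      · have := h.unique (ih a' ha') hq
        have h3 := congrArg f this
        rw [hf, hf] at h3
        omega
      · rcases lt_trichotomy (f b') a with h3 | h3 | h3
        · have h4 := ih (f b') h3
          rw [hf] at h4
          exact ((h a b').1 hq).2.1 _ h3 h4
        · have := congrArg f h3
          rw [hf] at this
          omega
        · exact ((h a b').1 hq).1 (h2 a b' hb' h3)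
  constructor
  · exact fun hq => h.unique hq (key a)
  · rintro rfl
    exact key a

theorem xor_four (x a : ℕ) (hx : x < 4) : x ^^^ a = 4 * (a / 4) + (x ^^^ (a % 4)) := by
  have hd : (x ^^^ a) / 2 ^ 2 = a / 2 ^ 2 := by
    rw [Nat.xor_div_two_pow, Nat.div_eq_of_lt (by omega : x < 2 ^ 2), Nat.zero_xor]
  have hm : (x ^^^ a) % 2 ^ 2 = x ^^^ (a % 2 ^ 2) := by
    rw [Nat.xor_mod_two_pow, Nat.mod_eq_of_lt (by omega : x < 2 ^ 2)]
  have := Nat.div_add_mod (x ^^^ a) (2 ^ 2)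
  rw [hd, hm] at this
  exact this.symm

theorem xor_one (a : ℕ) : 1 ^^^ a = if a % 2 = 0 then a + 1 else a - 1 := by
  rw [xor_four 1 a (by omega)]
  have h4 : a % 4 < 4 := Nat.mod_lt _ (by omega)
  generalize hr : a % 4 = r at h4
  have hq : a = 4 * (a / 4) + r := by omega
  interval_cases r <;> simp <;> split_ifs <;> omega

theorem xor_two (a : ℕ) : 2 ^^^ a = if a % 4 < 2 then a + 2 else a - 2 := by
  rw [xor_four 2 a (by omega)]
  have h4 : a % 4 < 4 := Nat.mod_lt _ (by omega)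
  generalize hr : a % 4 = r at h4
  have hq : a = 4 * (a / 4) + r := by omega
  interval_cases r <;> simp <;> omega

theorem xor_three (a : ℕ) : 3 ^^^ a = if a % 4 = 0 then a + 3 else if a % 4 = 1 then a + 1
    else if a % 4 = 2 then a - 1 else a - 3 := by
  rw [xor_four 3 a (by omega)]
  have h4 : a % 4 < 4 := Nat.mod_lt _ (by omega)
  generalize hr : a % 4 = r at h4
  have hq : a = 4 * (a / 4) + r := by omega
  interval_cases r <;> simp <;> omega

/-- the position with the heaps `c, a, b` -/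
theorem pos_three (c a b : ℕ) : pos ![c, 0, 0] 1 2 a b = ![c, a, b] := by
  funext l
  fin_cases l <;> simp [pos, Function.update]

theorem upd_three (c k : ℕ) : Function.update (![c, 0, 0] : Fin 3 → ℕ) 0 k = ![k, 0, 0] := by
  funext l
  fin_cases l <;> simp [Function.update]

theorem rest_three : rest (1 : Fin 3) 2 = {0} := by decide

theorem NZ_three (c a b : ℕ) : NZ (![c, 0, 0] : Fin 3 → ℕ) 1 2 a b ↔
    (c ≠ 0 ∨ a ≠ 0 ∨ b ≠ 0) ∧ b = c ^^^ a := by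
  unfold NZ
  rw [nimSum_pos_zero _ (by decide), rest_three, pos_three]
  have : nimSum ({0} : Finset (Fin 3)) ![c, 0, 0] = c := by
    rw [← Finset.insert_empty, nimSum_insert (by simp), nimSum_empty]
    simp
  rw [this]
  apply and_congr_left'
  constructor
  · rintro ⟨l, hl⟩
    fin_cases l <;> simp at hl
    · exact Or.inl hl
    · exact Or.inr (Or.inl hl)
    · exact Or.inr (Or.inr hl)
  · rintro (hh | hh | hh)
    · exact ⟨0, by simpa using hh⟩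
    · exact ⟨1, by simpa using hh⟩
    · exact ⟨2, by simpa using hh⟩

theorem EE_three (c a b : ℕ) : EE (![c, 0, 0] : Fin 3 → ℕ) 1 2 a b ↔
    ((c ≠ 0 ∨ a ≠ 0 ∨ b ≠ 0) ∧ b = c ^^^ a) ∨ ∃ k < c, PP (![k, 0, 0] : Fin 3 → ℕ) 1 2 a b := by
  unfold EE
  rw [NZ_three]
  apply or_congr_right
  constructor
  · rintro ⟨⟨l, k⟩, ht, hh⟩
    obtain ⟨⟨h1, h2⟩, hk⟩ := (mem_opts _ _ _ _).1 ht
    have hl : l = 0 := by
      fin_cases l
      · rfl
      · exact absurd rfl h1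
      · exact absurd rfl h2
    subst hl
    dsimp only at hh hk
    rw [upd_three] at hh
    exact ⟨k, by simpa using hk, hh⟩
  · rintro ⟨k, hk, hh⟩
    refine ⟨⟨0, k⟩, (mem_opts _ _ _ _).2
      ⟨⟨show (0 : Fin 3) ≠ 1 by decide, show (0 : Fin 3) ≠ 2 by decide⟩, by simpa using hk⟩, ?_⟩
    dsimp only
    rw [upd_three]
    exact hh

/-- two heaps -/
def f0 (a : ℕ) : ℕ := if a = 0 then 0 else if a % 2 = 1 then a + 1 else a - 1

/-- partners of `a` beside a heap of size one -/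
def f1 (a : ℕ) : ℕ := if a = 0 then 2 else if a = 2 then 0 else a

/-- partners of `a` beside a heap of size two -/
def f2 (a : ℕ) : ℕ :=
  if a < 9 then [1, 0, 2, 5, 7, 3, 8, 4, 6].getD a 0
  else if a % 4 = 1 then a + 3 else if a % 4 = 2 then a + 1 else if a % 4 = 3 then a - 1 else a - 3

/-- partners of `a` beside a heap of size three -/
def f3 (a : ℕ) : ℕ :=
  if a < 10 then [4, 3, 5, 1, 0, 2, 7, 6, 9, 8].getD a 0
  else if a % 4 = 2 ∨ a % 4 = 3 then a + 2 else a - 2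

theorem f0_spec (a : ℕ) : (a = 0 ∧ f0 a = 0) ∨ (a % 2 = 1 ∧ f0 a = a + 1) ∨
    (a ≠ 0 ∧ a % 2 = 0 ∧ f0 a + 1 = a) := by
  unfold f0
  split_ifs <;> omega

theorem f1_spec (a : ℕ) : (a = 0 ∧ f1 a = 2) ∨ (a = 2 ∧ f1 a = 0) ∨
    (a ≠ 0 ∧ a ≠ 2 ∧ f1 a = a) := by
  unfold f1
  split_ifs <;> omega

theorem f2_spec (a : ℕ) : (a = 0 ∧ f2 a = 1) ∨ (a = 1 ∧ f2 a = 0) ∨ (a = 2 ∧ f2 a = 2) ∨
    (a = 3 ∧ f2 a = 5) ∨ (a = 4 ∧ f2 a = 7) ∨ (a = 5 ∧ f2 a = 3) ∨ (a = 6 ∧ f2 a = 8) ∨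
    (a = 7 ∧ f2 a = 4) ∨ (a = 8 ∧ f2 a = 6) ∨ (9 ≤ a ∧ a % 4 = 1 ∧ f2 a = a + 3) ∨
    (9 ≤ a ∧ a % 4 = 2 ∧ f2 a = a + 1) ∨ (9 ≤ a ∧ a % 4 = 3 ∧ f2 a + 1 = a) ∨
    (9 ≤ a ∧ a % 4 = 0 ∧ f2 a + 3 = a) := by
  by_cases h : a < 9
  · interval_cases a <;> simp [f2]
  · have h9 : 9 ≤ a := by omega
    have key : (a % 4 = 1 ∧ f2 a = a + 3) ∨ (a % 4 = 2 ∧ f2 a = a + 1) ∨
        (a % 4 = 3 ∧ f2 a + 1 = a) ∨ (a % 4 = 0 ∧ f2 a + 3 = a) := by
      unfold f2
      rw [if_neg h]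
      split_ifs <;> omega
    refine Or.inr (Or.inr (Or.inr (Or.inr (Or.inr (Or.inr (Or.inr (Or.inr (Or.inr ?_))))))))
    rcases key with k | k | k | k
    · exact Or.inl ⟨h9, k⟩
    · exact Or.inr (Or.inl ⟨h9, k⟩)
    · exact Or.inr (Or.inr (Or.inl ⟨h9, k⟩))
    · exact Or.inr (Or.inr (Or.inr ⟨h9, k⟩))

theorem f3_spec (a : ℕ) : (a = 0 ∧ f3 a = 4) ∨ (a = 1 ∧ f3 a = 3) ∨ (a = 2 ∧ f3 a = 5) ∨
    (a = 3 ∧ f3 a = 1) ∨ (a = 4 ∧ f3 a = 0) ∨ (a = 5 ∧ f3 a = 2) ∨ (a = 6 ∧ f3 a = 7) ∨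
    (a = 7 ∧ f3 a = 6) ∨ (a = 8 ∧ f3 a = 9) ∨ (a = 9 ∧ f3 a = 8) ∨
    (10 ≤ a ∧ (a % 4 = 2 ∨ a % 4 = 3) ∧ f3 a = a + 2) ∨
    (10 ≤ a ∧ (a % 4 = 0 ∨ a % 4 = 1) ∧ f3 a + 2 = a) := by
  by_cases h : a < 10
  · interval_cases a <;> simp [f3]
  · have h10 : 10 ≤ a := by omega
    have key : ((a % 4 = 2 ∨ a % 4 = 3) ∧ f3 a = a + 2) ∨
        ((a % 4 = 0 ∨ a % 4 = 1) ∧ f3 a + 2 = a) := by
      unfold f3
      rw [if_neg h]
      split_ifs <;> omega
    refine Or.inr (Or.inr (Or.inr (Or.inr (Or.inr (Or.inr (Or.inr (Or.inr (Or.inr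
      (Or.inr ?_)))))))))
    rcases key with k | k
    · exact Or.inl ⟨h10, k⟩
    · exact Or.inr ⟨h10, k⟩

theorem x1_spec (a : ℕ) : (a % 2 = 0 ∧ 1 ^^^ a = a + 1) ∨ (a % 2 = 1 ∧ (1 ^^^ a) + 1 = a) := by
  rw [xor_one]
  split_ifs <;> omega

theorem x2_spec (a : ℕ) : (a % 4 < 2 ∧ 2 ^^^ a = a + 2) ∨ (2 ≤ a % 4 ∧ (2 ^^^ a) + 2 = a) := by
  rw [xor_two]
  split_ifs <;> omega

theorem x3_spec (a : ℕ) : (a % 4 = 0 ∧ 3 ^^^ a = a + 3) ∨ (a % 4 = 1 ∧ 3 ^^^ a = a + 1) ∨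
    (a % 4 = 2 ∧ (3 ^^^ a) + 1 = a) ∨ (a % 4 = 3 ∧ (3 ^^^ a) + 3 = a) := by
  rw [xor_three]
  split_ifs <;> omega

theorem tab0 (a b : ℕ) : PP (![0, 0, 0] : Fin 3 → ℕ) 1 2 a b ↔ b = f0 a := by
  refine (rule (![0, 0, 0] : Fin 3 → ℕ) (by decide : (1 : Fin 3) ≠ 2)).table f0 ?_ ?_ ?_ a b
  · intro a
    have h1 := f0_spec a
    have h2 := f0_spec (f0 a)
    omega
  · intro a
    rw [EE_three, Nat.zero_xor]
    rintro (⟨h1, h2⟩ | ⟨k, hk, -⟩)
    · have h3 := f0_spec a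
      omega
    · omega
  · intro a b h1 h2
    rw [EE_three, Nat.zero_xor]
    left
    have h3 := f0_spec a
    have h4 := f0_spec b
    omega

theorem tab1 (a b : ℕ) : PP (![1, 0, 0] : Fin 3 → ℕ) 1 2 a b ↔ b = f1 a := by
  have hE : ∀ a b, EE (![1, 0, 0] : Fin 3 → ℕ) 1 2 a b ↔ b = 1 ^^^ a ∨ b = f0 a := by
    intro a b
    rw [EE_three]
    constructor
    · rintro (⟨-, h2⟩ | ⟨k, hk, hh⟩)
      · exact Or.inl h2
      · have : k = 0 := by omega
        subst this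
        exact Or.inr ((tab0 a b).1 hh)
    · rintro (h1 | h1)
      · exact Or.inl ⟨Or.inl one_ne_zero, h1⟩
      · exact Or.inr ⟨0, one_pos, (tab0 a b).2 h1⟩
  refine (rule (![1, 0, 0] : Fin 3 → ℕ) (by decide : (1 : Fin 3) ≠ 2)).table f1 ?_ ?_ ?_ a b
  · intro a
    have h1 := f1_spec a
    have h2 := f1_spec (f1 a)
    omega
  · intro a
    rw [hE]
    have h0 := f0_spec a
    have h1 := f1_spec a
    have h2 := x1_spec a
    omega
  · intro a b h1 h2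
    rw [hE]
    have h0 := f0_spec a
    have h3 := f1_spec a
    have h4 := f1_spec b
    have h5 := x1_spec a
    omega

theorem tab2 (a b : ℕ) : PP (![2, 0, 0] : Fin 3 → ℕ) 1 2 a b ↔ b = f2 a := by
  have hE : ∀ a b, EE (![2, 0, 0] : Fin 3 → ℕ) 1 2 a b ↔ b = 2 ^^^ a ∨ b = f0 a ∨ b = f1 a := by
    intro a b
    rw [EE_three]
    constructor
    · rintro (⟨-, h2⟩ | ⟨k, hk, hh⟩)
      · exact Or.inl h2
      · interval_cases k
        · exact Or.inr (Or.inl ((tab0 a b).1 hh))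
        · exact Or.inr (Or.inr ((tab1 a b).1 hh))
    · rintro (h1 | h1 | h1)
      · exact Or.inl ⟨Or.inl two_ne_zero, h1⟩
      · exact Or.inr ⟨0, by omega, (tab0 a b).2 h1⟩
      · exact Or.inr ⟨1, by omega, (tab1 a b).2 h1⟩
  refine (rule (![2, 0, 0] : Fin 3 → ℕ) (by decide : (1 : Fin 3) ≠ 2)).table f2 ?_ ?_ ?_ a b
  · intro a
    have h1 := f2_spec a
    have h2 := f2_spec (f2 a)
    rcases h1 with h | h | h | h | h | h | h | h | h | h | h | h | h <;> omega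
  · intro a
    rw [hE]
    have h0 := f0_spec a
    have h1 := f1_spec a
    have h2 := x2_spec a
    have h3 := f2_spec a
    rcases h3 with h | h | h | h | h | h | h | h | h | h | h | h | h <;> omega
  · intro a b h1 h2
    rw [hE]
    have h0 := f0_spec a
    have h3 := f1_spec a
    have h4 := f2_spec a
    have h5 := f2_spec b
    have h6 := x2_spec a
    rcases h4 with h | h | h | h | h | h | h | h | h | h | h | h | h <;> omega

theorem tab3 (a b : ℕ) : PP (![3, 0, 0] : Fin 3 → ℕ) 1 2 a b ↔ b = f3 a := by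
  have hE : ∀ a b, EE (![3, 0, 0] : Fin 3 → ℕ) 1 2 a b ↔
      b = 3 ^^^ a ∨ b = f0 a ∨ b = f1 a ∨ b = f2 a := by
    intro a b
    rw [EE_three]
    constructor
    · rintro (⟨-, h2⟩ | ⟨k, hk, hh⟩)
      · exact Or.inl h2
      · interval_cases k
        · exact Or.inr (Or.inl ((tab0 a b).1 hh))
        · exact Or.inr (Or.inr (Or.inl ((tab1 a b).1 hh)))
        · exact Or.inr (Or.inr (Or.inr ((tab2 a b).1 hh)))
    · rintro (h1 | h1 | h1 | h1)
      · exact Or.inl ⟨Or.inl three_ne_zero, h1⟩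
      · exact Or.inr ⟨0, by omega, (tab0 a b).2 h1⟩
      · exact Or.inr ⟨1, by omega, (tab1 a b).2 h1⟩
      · exact Or.inr ⟨2, by omega, (tab2 a b).2 h1⟩
  refine (rule (![3, 0, 0] : Fin 3 → ℕ) (by decide : (1 : Fin 3) ≠ 2)).table f3 ?_ ?_ ?_ a b
  · intro a
    have h1 := f3_spec a
    have h2 := f3_spec (f3 a)
    rcases h1 with h | h | h | h | h | h | h | h | h | h | h | h <;> omega
  · intro a
    rw [hE]
    have h0 := f0_spec a
    have h1 := f1_spec a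
    have h2 := x3_spec a
    have h3 := f3_spec a
    have h4 := f2_spec a
    rcases h3 with h | h | h | h | h | h | h | h | h | h | h | h <;> omega
  · intro a b h1 h2
    rw [hE]
    have h0 := f0_spec a
    have h3 := f1_spec a
    have h4 := f2_spec a
    have h5 := f3_spec a
    have h7 := f3_spec b
    have h6 := x3_spec a
    rcases h5 with h | h | h | h | h | h | h | h | h | h | h | h <;> omega

end Pool.Agent.Y806.NP
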